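import Pool.Agent.helper52.ED.Spec
import Pool.Agent.helper62.WP.WDS

/-! Project ed: (MP_af9036_an): the return lemma RGR (common core of (N) and (VT)).

`RGR_stmt` (Pool/Agent/helper52/ED/Spec.lean): two visits of an orbit in one small hyperbolic cell, with univalent charts `G`, `G'` of the tubes (in the coordinate of the disc of `V`), `f^m` in these charts is any holomorphic self map `B` of the disc fixing `0`:
the hyperbolic derivative of the chart grows by a definite factor. Uses only W (`V3W.FW_stmt`), W+ (`WP.WPU_stmt`) and Koebe. -/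

set_option autoImplicit false

open Complex Metric Set Filter Topology MeasureTheory
open Pool.Agent.helper98.ILF Pool.Agent.helper16.Multibrot HY

noncomputable section

namespace ED

/-- a holomorphic inverse of an injective holomorphic function on the disc. -/
theorem RGR_inv (hKO0 : V3.KO0_stmt) {F : ℂ → ℂ} (hF : DifferentiableOn ℂ F UD)
    (hinj : InjOn F UD) :
    ∃ g : ℂ → ℂ, (∀ x ∈ UD, g (F x) = x) ∧ (∀ x ∈ UD, DifferentiableAt ℂ g (F x)) := by
  have hop : IsOpen UD := isOpen_ball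
  have hg : ∀ x ∈ UD, Function.invFunOn F UD (F x) = x := fun x hx =>
    Function.invFunOn_apply_eq (f := F) hx |> fun h =>
      hinj (Function.invFunOn_apply_mem (f := F) hx) hx h
  refine ⟨Function.invFunOn F UD, hg, ?_⟩
  intro x hx
  set g := Function.invFunOn F UD with hgdef
  have han : AnalyticAt ℂ F x := hF.analyticAt (hop.mem_nhds hx)
  have hne : deriv F x ≠ 0 := hKO0 F UD hop hF hinj _ hx
  have hst : HasStrictDerivAt F (deriv F x) x := han.hasStrictDerivAt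
  have hmap : Filter.map F (𝓝 x) = 𝓝 (F x) := hst.map_nhds_eq hne
  have hgx : g (F x) = x := hg x hx
  have hcont : ContinuousAt g (F x) := by
    have e1 : Tendsto (g ∘ F) (𝓝 x) (𝓝 x) := by
      refine Tendsto.congr' ?_ tendsto_id
      have e2 : ∀ᶠ y in 𝓝 x, y ∈ UD := hop.mem_nhds hx
      filter_upwards [e2] with y hy
      exact (hg y hy).symm
    have e4 : Tendsto g (Filter.map F (𝓝 x)) (𝓝 x) := by
      rw [tendsto_map'_iff]
      exact e1
    rw [hmap] at e4
    unfold ContinuousAt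
    rw [hgx]
    exact e4
  have hst' : HasDerivAt F (deriv F x) (g (F x)) := by
    rw [hgx]; exact hst.hasDerivAt
  refine (HasDerivAt.of_local_left_inverse hcont hst' hne ?_).differentiableAt
  have e5 : ∀ᶠ y in Filter.map F (𝓝 x), F (g y) = y := by
    rw [Filter.eventually_map]
    filter_upwards [hop.mem_nhds hx] with y hy
    rw [hg y hy]
  rw [hmap] at e5
  exact e5

/-- the derivative of a bounded function is Lipschitz near `0`. -/
theorem RGR_lip (M : ℝ) (Q : ℂ → ℂ) (hd : DifferentiableOn ℂ Q (ball 0 1))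
    (hb : ∀ u ∈ ball (0 : ℂ) 1, ‖Q u‖ ≤ M) :
    ∀ u ∈ ball (0 : ℂ) (1 / 4), ‖deriv Q u - deriv Q 0‖ ≤ 32 * M * ‖u‖ := by
  have h1 : ∀ u ∈ ball (0 : ℂ) (1 / 2), ‖deriv Q u‖ ≤ M / (1 / 4) := by
    intro u hu
    rw [mem_ball_zero_iff] at hu
    have hsub : closedBall u (1 / 4) ⊆ ball (0 : ℂ) 1 := by
      intro z hz
      rw [mem_closedBall, dist_eq_norm] at hz
      rw [mem_ball_zero_iff]
      have := norm_add_le (z - u) u
      rw [sub_add_cancel] at this
      linarith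
    refine Complex.norm_deriv_le_of_forall_mem_sphere_norm_le (by norm_num)
      ((hd.mono hsub).diffContOnCl_ball (Subset.refl _)) ?_
    intro z hz
    exact hb z (hsub (sphere_subset_closedBall hz))
  have hdd : DifferentiableOn ℂ (deriv Q) (ball 0 1) := hd.deriv isOpen_ball
  have h2 : ∀ u ∈ ball (0 : ℂ) (1 / 4), ‖deriv (deriv Q) u‖ ≤ 32 * M := by
    intro u hu
    rw [mem_ball_zero_iff] at hu
    have hsub : closedBall u (1 / 8) ⊆ ball (0 : ℂ) (1 / 2) := by
      intro z hz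
      rw [mem_closedBall, dist_eq_norm] at hz
      rw [mem_ball_zero_iff]
      have := norm_add_le (z - u) u
      rw [sub_add_cancel] at this
      linarith
    have e1 : ‖deriv (deriv Q) u‖ ≤ M / (1 / 4) / (1 / 8) := by
      refine Complex.norm_deriv_le_of_forall_mem_sphere_norm_le (by norm_num)
        (((hdd.mono (ball_subset_ball (by norm_num))).mono hsub).diffContOnCl_ball (Subset.refl _)) ?_
      intro z hz
      exact h1 z (hsub (sphere_subset_closedBall hz))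
    refine e1.trans (le_of_eq ?_)
    ring
  intro u hu
  have h0 : (0 : ℂ) ∈ ball (0 : ℂ) (1 / 4) := mem_ball_self (by norm_num)
  have hsub : ball (0 : ℂ) (1 / 4) ⊆ ball 0 1 := ball_subset_ball (by norm_num)
  have e1 := (convex_ball (0 : ℂ) (1 / 4)).norm_image_sub_le_of_norm_deriv_le (𝕜 := ℂ) (f := deriv Q)
    (fun z hz => hdd.differentiableAt (isOpen_ball.mem_nhds (hsub hz))) h2 h0 hu
  rw [sub_zero] at e1
  exact e1

/-- local alternative: a fixed point with small multiplier, or a near identity. -/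
theorem RGR_loc (M δ ε : ℝ) (hM : 1 ≤ M) (hδ : 0 < δ) (hε : 0 < ε) :
    ∃ η > (0 : ℝ), ∃ ρ > (0 : ℝ), ρ ≤ 1 ∧ ∀ Q : ℂ → ℂ, DifferentiableOn ℂ Q (ball 0 1) →
      (∀ u ∈ ball (0 : ℂ) 1, ‖Q u‖ ≤ M) → ‖Q 0‖ ≤ η → ‖deriv Q 0‖ ≤ 1 + η →
      (∃ u ∈ ball (0 : ℂ) 1, Q u = u ∧ ‖deriv Q u‖ < 1 + δ) ∨
      (InjOn Q (ball 0 ρ) ∧ ‖Q 0‖ ≤ ε * ρ ∧ ‖deriv Q 0 - 1‖ ≤ ε) := by
  have hM0 : 0 < M := by linarith
  set ε₁ : ℝ := min ε (1 / 2) with hε₁
  have hε₁0 : 0 < ε₁ := by positivity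
  have hε₁a : ε₁ ≤ ε := min_le_left _ _
  have hε₁b : ε₁ ≤ 1 / 2 := min_le_right _ _
  set ρ : ℝ := 1 / (256 * M) with hρ
  have hρ0 : 0 < ρ := by positivity
  have hρM : 256 * M * ρ = 1 := by rw [hρ]; field_simp
  have hρ4 : ρ < 1 / 4 := by nlinarith
  set τ : ℝ := min ε₁ δ / (128 * M + 128 * δ) with hτ
  have hτ0 : 0 < τ := by positivity
  have hτM : τ * (128 * M + 128 * δ) = min ε₁ δ := by rw [hτ]; field_simp
  have hτδ : 0 < τ * δ := by positivity
  have hτe : 128 * M * τ ≤ ε₁ := by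
    have := min_le_left ε₁ δ
    nlinarith
  have hτd : 128 * M * τ ≤ δ := by
    have := min_le_right ε₁ δ
    nlinarith
  have hτ4 : τ < 1 / 4 := by nlinarith
  set η : ℝ := min (ε₁ * τ / 8) (min (δ / 4) (ε * ρ)) with hη
  have hη0 : 0 < η := by positivity
  have hηa : η ≤ ε₁ * τ / 8 := min_le_left _ _
  have hηb : η ≤ δ / 4 := (min_le_right _ _).trans (min_le_left _ _)
  have hηc : η ≤ ε * ρ := (min_le_right _ _).trans (min_le_right _ _)
  refine ⟨η, hη0, ρ, hρ0, by linarith, ?_⟩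
  intro Q hd hb hQ0 hQ1
  have hlip := RGR_lip M Q hd hb
  set l : ℂ := deriv Q 0 with hl
  have hdiff : ∀ z ∈ ball (0 : ℂ) 1, HasDerivAt Q (deriv Q z) z := fun z hz =>
    (hd.differentiableAt (isOpen_ball.mem_nhds hz)).hasDerivAt
  -- difference estimate
  have hdl : ∀ t : ℝ, 0 < t → t ≤ 1 / 4 → ∀ u ∈ ball (0 : ℂ) t, ∀ v ∈ ball (0 : ℂ) t,
      ‖(Q v - l * v) - (Q u - l * u)‖ ≤ 32 * M * t * ‖v - u‖ := by
    intro t ht0 ht u hu v hv
    have hdv : ∀ z ∈ ball (0 : ℂ) t, HasDerivWithinAt (fun z => Q z - l * z) (deriv Q z - l)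
        (ball 0 t) z := by
      intro z hz
      have h1 := hdiff z (ball_subset_ball (by linarith) hz)
      have h2 : HasDerivAt (fun z : ℂ => l * z) l z := by
        simpa using (hasDerivAt_id z).const_mul l
      exact (h1.sub h2).hasDerivWithinAt
    refine (convex_ball (0 : ℂ) t).norm_image_sub_le_of_norm_hasDerivWithin_le hdv ?_ hu hv
    intro z hz
    refine (hlip z (ball_subset_ball ht hz)).trans ?_
    rw [mem_ball_zero_iff] at hz
    have : 0 ≤ 32 * M := by positivity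
    nlinarith
  by_cases hcase : ‖l - 1‖ ≤ ε₁
  · right
    refine ⟨?_, hQ0.trans hηc, hcase.trans hε₁a⟩
    intro u hu v hv huv
    by_contra hne
    have e1 := hdl ρ hρ0 hρ4.le u hu v hv
    have e2 : (Q v - l * v) - (Q u - l * u) = -(l * (v - u)) := by rw [huv]; ring
    rw [e2, norm_neg, norm_mul] at e1
    have e3 : 0 < ‖v - u‖ := norm_pos_iff.mpr (sub_ne_zero.mpr (Ne.symm hne))
    have e4 : 1 / 2 ≤ ‖l‖ := by
      have h1 := norm_sub_norm_le (1 : ℂ) (1 - l)
      rw [norm_one, sub_sub_cancel, norm_sub_rev] at h1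
      linarith
    nlinarith
  · left
    push Not at hcase
    set H : ℂ → ℂ := fun u => Q u - u with hH
    have hHd : DifferentiableOn ℂ H (ball 0 1) := hd.sub differentiableOn_id
    have hcl : closedBall (0 : ℂ) τ ⊆ ball 0 1 := closedBall_subset_ball (by linarith)
    have hHc : DiffContOnCl ℂ H (ball 0 τ) := (hHd.mono hcl).diffContOnCl_ball (Subset.refl _)
    have hsph : ∀ z ∈ sphere (0 : ℂ) τ, ε₁ * τ / 2 ≤ ‖H z - H 0‖ := by
      intro z hz
      rw [mem_sphere_zero_iff_norm] at hz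
      have hz4 : z ∈ ball (0 : ℂ) (2 * τ) := by rw [mem_ball_zero_iff]; linarith
      have h04 : (0 : ℂ) ∈ ball (0 : ℂ) (2 * τ) := mem_ball_self (by linarith)
      have e1 := hdl (2 * τ) (by linarith) (by nlinarith) 0 h04 z hz4
      have e2 : H z - H 0 = (l - 1) * z + ((Q z - l * z) - (Q 0 - l * 0)) := by
        simp only [hH]; ring
      rw [sub_zero, hz] at e1
      have e3 := norm_sub_norm_le ((l - 1) * z) (-((Q z - l * z) - (Q 0 - l * 0)))
      rw [sub_neg_eq_add, ← e2, norm_neg, norm_mul, hz] at e3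
      have e4 : ε₁ * τ ≤ ‖l - 1‖ * τ := mul_le_mul_of_nonneg_right hcase.le hτ0.le
      have e5 : 32 * M * (2 * τ) * τ ≤ ε₁ / 2 * τ := by
        refine mul_le_mul_of_nonneg_right ?_ hτ0.le
        linarith
      linarith
    have hfreq : ∃ᶠ z in 𝓝 (0 : ℂ), H z ≠ H 0 := by
      intro hnot
      have hnot' : ∀ᶠ z in 𝓝 (0 : ℂ), H z = H 0 := by
        filter_upwards [hnot] with z hz
        by_contra h; exact hz h
      have hder : HasDerivAt H (l - 1) 0 := (hdiff 0 (mem_ball_self one_pos)).sub (hasDerivAt_id 0)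
      have hder' : HasDerivAt H 0 0 := (hasDerivAt_const (0 : ℂ) (H 0)).congr_of_eventuallyEq hnot'
      have : l - 1 = 0 := hder.unique hder'
      rw [this, norm_zero] at hcase
      linarith
    have hopen := hHc.ball_subset_image_closedBall hτ0 hsph hfreq
    have h0mem : (0 : ℂ) ∈ ball (H 0) (ε₁ * τ / 2 / 2) := by
      rw [mem_ball, dist_eq_norm, zero_sub, norm_neg]
      simp only [hH, sub_zero]
      refine lt_of_le_of_lt (hQ0.trans hηa) ?_
      have : 0 < ε₁ * τ := by positivity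
      linarith
    obtain ⟨u, hu, hu0⟩ := hopen h0mem
    have hu1 : u ∈ ball (0 : ℂ) 1 := hcl hu
    refine ⟨u, hu1, sub_eq_zero.1 hu0, ?_⟩
    rw [mem_closedBall_zero_iff] at hu
    have e1 := hlip u (by rw [mem_ball_zero_iff]; linarith)
    have e2 := norm_add_le (deriv Q u - l) l
    rw [sub_add_cancel] at e2
    have e3 : 32 * M * ‖u‖ ≤ δ / 4 := by nlinarith
    linarith

theorem RGR (hFW : V3W.FW_stmt) (hWPU : WP.WPU_stmt) (hMOB : HY.MOB_stmt) (hHDI : HY.HDI_stmt)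
    (hKO0 : V3.KO0_stmt) (hKO1 : V3.KO1_stmt) (hKO3 : V3.KO3_stmt) : RGR_stmt := by
  intro n hn r hr
  obtain ⟨δ, hδ, -, hWD⟩ := WPA.WDS hFW n hn r hr
  obtain ⟨ε₀, hε₀, hW⟩ := hWPU n hn r hr
  obtain ⟨K₁, hK₁, hko1⟩ := hKO1
  obtain ⟨K₃, hK₃, hko3⟩ := hKO3 (1 / 2) (by norm_num) (by norm_num)
  have hK₁0 : 0 < K₁ := by linarith
  have hK₃0 : 0 < K₃ := by linarith
  obtain ⟨η₁, hη₁, ρ, hρ0, hρ1, hloc⟩ := RGR_loc (2 * K₁ * (K₃ + K₃ * (1 + K₃))) δ ε₀ (by nlinarith [mul_nonneg hK₁0.le hK₃0.le]) hδ hε₀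
  set η : ℝ := min (1 / 4) (η₁ / (2 * K₁ * K₃ + 2 * K₃ + 1)) with hη
  have hη0 : 0 < η := by positivity
  have hη4 : η ≤ 1 / 4 := min_le_left _ _
  have hηη : η * (2 * K₁ * K₃ + 2 * K₃ + 1) ≤ η₁ := by
    have := min_le_right (1 / 4) (η₁ / (2 * K₁ * K₃ + 2 * K₃ + 1))
    rwa [le_div_iff₀ (by positivity)] at this
  refine ⟨η, hη0, ?_⟩
  intro c hc hdisj V φ hφ G G' B m hm hG hG' hBd hBm hB0 hrel hT
  by_contra hcon
  push Not at hcon
  have hop : IsOpen UD := isOpen_ball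
  have h0 : (0 : ℂ) ∈ UD := mem_ball_self one_pos
  have hUD : ∀ x : ℂ, x ∈ UD ↔ ‖x‖ < 1 := fun x => by simp [UD]
  set a : ℂ := G 0 with ha
  set a' : ℂ := G' 0 with ha'
  have haU : a ∈ UD := hG.map h0
  have ha'U : a' ∈ UD := hG'.map h0
  obtain ⟨m1, m2, m3, m4, m5, m6, m7, m8, m9, m10, m11, m12⟩ := hMOB a haU
  set F : ℂ → ℂ := (fz n c)^[m] with hF
  have hFd : Differentiable ℂ F := by
    have : Differentiable ℂ (fz n c) := by unfold fz; fun_prop
    exact this.iterate m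
  -- the hyperbolic derivative is at most one
  set l : ℝ := hd G 0 with hl
  have hl0 : 0 < l := by
    have h1 : deriv G 0 ≠ 0 := hKO0 G UD hop hG.dif hG.inj 0 h0
    have h2 : ‖a‖ < 1 := (hUD a).1 haU
    have h3 : 0 < 1 - ‖a‖ ^ 2 := by nlinarith [norm_nonneg a]
    simp only [hl, hd]
    exact div_pos (norm_pos_iff.2 h1) h3
  have hl1 : l ≤ 1 := by
    have e1 := hHDI.2.1 G (fun z => z) 0 hG.dif hG.map differentiableAt_fun_id h0
    have e2 : hd (fun z : ℂ => z) 0 = 1 := by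
      unfold hd
      simp
    rw [e2] at e1
    exact e1
  -- the chart centred at `a`
  set Φ : ℂ → ℂ := fun x => φ (S a x) with hΦ
  have hSm : MapsTo (S a) UD UD := fun x hx => (m1 x hx).2.1
  have hΦd : DifferentiableOn ℂ Φ UD := hφ.dif.comp m5 hSm
  have hΦi : InjOn Φ UD := hφ.inj.comp m7 hSm
  have hΦ0 : Φ 0 = φ a := by simp only [hΦ]; rw [m3]
  set q : ℝ := ‖deriv Φ 0‖ with hq
  have hq0 : 0 < q := norm_pos_iff.2 (hKO0 Φ UD hop hΦd hΦi 0 h0)
  set d : ℂ := T a a' with hdd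
  have hdU : d ∈ UD := (m1 a' ha'U).1
  have hdn : ‖d‖ ≤ η * l := hT
  have hdn' : ‖d‖ ≤ η := by nlinarith
  have hSd : S a d = a' := (m1 a' ha'U).2.2.1
  have hΦdd : Φ d = φ a' := by simp only [hΦ]; rw [hSd]
  have hk3 := (hko3 Φ 0 1 one_pos hΦd hΦi).2 d (by rw [mem_ball_zero_iff]; linarith)
  rw [sub_zero, div_one] at hk3
  obtain ⟨-, -, hk3a, hk3b⟩ := hk3
  -- displacement
  have hdisp : ‖φ a' - φ a‖ ≤ K₃ * η * (l * q) := by
    rw [hΦ0, hΦdd] at hk3a
    refine hk3a.trans ?_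
    have : ‖d‖ * q ≤ η * l * q := mul_le_mul_of_nonneg_right hdn hq0.le
    calc K₃ * ‖d‖ * q = K₃ * (‖d‖ * q) := by ring
      _ ≤ K₃ * (η * l * q) := mul_le_mul_of_nonneg_left this hK₃0.le
      _ = K₃ * η * (l * q) := by ring
  -- derivative of the two charts
  set P : ℂ → ℂ := fun x => φ (G x) with hP
  set P' : ℂ → ℂ := fun x => φ (G' x) with hP'
  have hPd : DifferentiableOn ℂ P UD := hφ.dif.comp hG.dif hG.map
  have hPi : InjOn P UD := hφ.inj.comp hG.inj hG.map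
  have hP'd : DifferentiableOn ℂ P' UD := hφ.dif.comp hG'.dif hG'.map
  have hP'i : InjOn P' UD := hφ.inj.comp hG'.inj hG'.map
  have hφa : DifferentiableAt ℂ φ a := hφ.dif.differentiableAt (hop.mem_nhds haU)
  have hφa' : DifferentiableAt ℂ φ a' := hφ.dif.differentiableAt (hop.mem_nhds ha'U)
  have hGa : DifferentiableAt ℂ G 0 := hG.dif.differentiableAt (hop.mem_nhds h0)
  have hG'a : DifferentiableAt ℂ G' 0 := hG'.dif.differentiableAt (hop.mem_nhds h0)
  have hpder : deriv P 0 = deriv φ a * deriv G 0 := by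
    have : deriv (φ ∘ G) 0 = deriv φ (G 0) * deriv G 0 := deriv_comp 0 hφa hGa
    exact this
  have hp'der : deriv P' 0 = deriv φ a' * deriv G' 0 := by
    have : deriv (φ ∘ G') 0 = deriv φ (G' 0) * deriv G' 0 := deriv_comp 0 hφa' hG'a
    exact this
  have hqa : q = ‖deriv φ a‖ * (1 - ‖a‖ ^ 2) := by
    have hSa : DifferentiableAt ℂ (S a) 0 := m5.differentiableAt (hop.mem_nhds h0)
    have hφ' : DifferentiableAt ℂ φ (S a 0) := by rw [m3]; exact hφa
    have e1 : deriv Φ 0 = deriv φ (S a 0) * deriv (S a) 0 := deriv_comp 0 hφ' hSa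
    rw [m3, m11] at e1
    have e2 : ‖(1 : ℂ) - (‖a‖ : ℂ) ^ 2‖ = 1 - ‖a‖ ^ 2 := by
      have h2 : ‖a‖ < 1 := (hUD a).1 haU
      have h3 : 0 ≤ 1 - ‖a‖ ^ 2 := by nlinarith [norm_nonneg a]
      have h4 : (1 : ℂ) - (‖a‖ : ℂ) ^ 2 = ((1 - ‖a‖ ^ 2 : ℝ) : ℂ) := by push_cast; ring
      rw [h4, Complex.norm_real, Real.norm_of_nonneg h3]
    rw [hq, e1, norm_mul, e2]
  have hq' : ‖deriv φ a'‖ * (1 - ‖a'‖ ^ 2) ≤ (1 + K₃ * η) * q := by
    have hSa : DifferentiableAt ℂ (S a) d := m5.differentiableAt (hop.mem_nhds hdU)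
    have hφ' : DifferentiableAt ℂ φ (S a d) := by rw [hSd]; exact hφa'
    have e1 : deriv Φ d = deriv φ (S a d) * deriv (S a) d := deriv_comp d hφ' hSa
    rw [hSd] at e1
    have e2 := (hHDI.1 a (fun z => z) d haU differentiableAt_fun_id hdU).2
    have hd1 : ‖d‖ < 1 := (hUD d).1 hdU
    have ha1 : ‖a'‖ < 1 := (hUD a').1 ha'U
    have hda : 0 < 1 - ‖a'‖ ^ 2 := by nlinarith [norm_nonneg a']
    have hdp : 0 < 1 - ‖d‖ ^ 2 := by nlinarith [norm_nonneg d]
    have e3 : ‖deriv (S a) d‖ = (1 - ‖a'‖ ^ 2) / (1 - ‖d‖ ^ 2) := by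
      unfold hd at e2
      simp only [hSd] at e2
      rw [deriv_id'', norm_one] at e2
      have e4 : deriv (fun z => S a z) d = deriv (S a) d := rfl
      rw [e4] at e2
      field_simp at e2 ⊢
      linarith
    have e5 : ‖deriv Φ d‖ ≤ (1 + K₃ * η) * q := by
      have t1 := norm_add_le (deriv Φ d - deriv Φ 0) (deriv Φ 0)
      rw [sub_add_cancel] at t1
      have t2 : K₃ * ‖d‖ * q ≤ K₃ * η * q := by
        refine mul_le_mul_of_nonneg_right (mul_le_mul_of_nonneg_left hdn' hK₃0.le) hq0.le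
      calc ‖deriv Φ d‖ ≤ ‖deriv Φ d - deriv Φ 0‖ + ‖deriv Φ 0‖ := t1
        _ ≤ K₃ * η * q + q := add_le_add (hk3b.trans t2) le_rfl
        _ = (1 + K₃ * η) * q := by ring
    refine le_trans ?_ e5
    rw [e1, norm_mul, e3]
    have e6 : 1 - ‖a'‖ ^ 2 ≤ (1 - ‖a'‖ ^ 2) / (1 - ‖d‖ ^ 2) := by
      rw [le_div_iff₀ hdp]
      nlinarith [norm_nonneg d, sq_nonneg ‖d‖]
    exact mul_le_mul_of_nonneg_left e6 (norm_nonneg _)
  set p : ℝ := ‖deriv P 0‖ with hp
  have hplq : p = l * q := by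
    have h2 : ‖a‖ < 1 := (hUD a).1 haU
    have h3 : 0 < 1 - ‖a‖ ^ 2 := by nlinarith [norm_nonneg a]
    rw [hp, hpder, norm_mul, hqa]
    simp only [hl, hd]
    rw [← ha]
    field_simp
  have hp0 : 0 < p := by rw [hplq]; positivity
  have hp'le : ‖deriv P' 0‖ ≤ (1 + K₃ * η) * (1 + η) * p := by
    have h2 : ‖a'‖ < 1 := (hUD a').1 ha'U
    have h3 : 0 < 1 - ‖a'‖ ^ 2 := by nlinarith [norm_nonneg a']
    have e1 : ‖deriv P' 0‖ = (‖deriv φ a'‖ * (1 - ‖a'‖ ^ 2)) * hd G' 0 := by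
      rw [hp'der, norm_mul]
      simp only [hd]
      rw [← ha']
      field_simp
    have e2 : 0 ≤ hd G' 0 := by
      simp only [hd]
      rw [← ha']
      positivity
    rw [e1, hplq]
    calc (‖deriv φ a'‖ * (1 - ‖a'‖ ^ 2)) * hd G' 0 ≤ ((1 + K₃ * η) * q) * ((1 + η) * l) :=
          mul_le_mul hq' hcon.le e2 (by positivity)
      _ = (1 + K₃ * η) * (1 + η) * (l * q) := by ring
  -- Schwarz for `B`
  have hBm' : MapsTo B (ball 0 1) (closedBall 0 1) := fun z hz => ball_subset_closedBall (hBm hz)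
  have hBn : ∀ x : ℂ, ‖x‖ < 1 → ‖B x‖ ≤ ‖x‖ := fun x hx =>
    Complex.norm_le_norm_of_mapsTo_ball hBd hBm' hB0 hx
  have hBa : DifferentiableAt ℂ B 0 := hBd.differentiableAt (hop.mem_nhds h0)
  have hB1 : ‖deriv B 0‖ ≤ 1 := by
    have h1 : MapsTo B (ball 0 1) (closedBall (B 0) 1) := by rw [hB0]; exact hBm'
    have := Complex.norm_deriv_le_div_of_mapsTo_ball hBd h1 one_pos
    simpa using this
  -- the multiplier
  set w : ℂ := φ a with hw
  have hP0 : P 0 = w := rfl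
  have hFw : F w = φ a' := by
    have := hrel 0 h0
    rw [hB0] at this
    exact this
  have hlam : ‖deriv F w‖ * p ≤ ‖deriv P' 0‖ := by
    have e1 : deriv (F ∘ P) 0 = deriv F (P 0) * deriv P 0 :=
      deriv_comp 0 (hFd _) (hPd.differentiableAt (hop.mem_nhds h0))
    have hP'B : DifferentiableAt ℂ P' (B 0) := by
      rw [hB0]; exact hP'd.differentiableAt (hop.mem_nhds h0)
    have e2 : deriv (P' ∘ B) 0 = deriv P' (B 0) * deriv B 0 := deriv_comp 0 hP'B hBa
    have e3 : deriv (F ∘ P) 0 = deriv (P' ∘ B) 0 := by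
      apply Filter.EventuallyEq.deriv_eq
      filter_upwards [hop.mem_nhds h0] with z hz
      exact hrel z hz
    rw [e1, e2, hB0] at e3
    have e4 := congrArg norm e3
    rw [norm_mul, norm_mul] at e4
    change ‖deriv F w‖ * p = ‖deriv P' 0‖ * ‖deriv B 0‖ at e4
    rw [e4]
    exact mul_le_of_le_one_right (norm_nonneg _) hB1
  -- the inverse chart
  obtain ⟨X, hX1, hX2⟩ := RGR_inv hKO0 hPd hPi
  have hcov : ball w (p / K₁) ⊆ P '' UD := by
    have e1 := hko1 P 0 1 one_pos hPd hPi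
    rw [one_mul] at e1
    exact e1
  set s : ℝ := p / (2 * K₁) with hs
  have hs0 : 0 < s := by positivity
  have hsp : 2 * K₁ * s = p := by rw [hs]; field_simp
  have hspK : p / K₁ = 2 * s := by rw [hs]; field_simp
  have hXd : DifferentiableOn ℂ X (ball w (p / K₁)) := by
    intro z hz
    obtain ⟨x, hx, rfl⟩ := hcov hz
    exact (hX2 x hx).differentiableWithinAt
  have hXm : MapsTo X (ball w (p / K₁)) (closedBall (X w) 1) := by
    intro z hz
    obtain ⟨x, hx, rfl⟩ := hcov hz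
    have h1 : X w = 0 := by rw [← hP0]; exact hX1 0 h0
    rw [hX1 x hx, h1]
    exact ball_subset_closedBall hx
  have hXw : X w = 0 := by rw [← hP0]; exact hX1 0 h0
  have hXhalf : ∀ z ∈ ball w s, X z ∈ UD ∧ ‖X z‖ < 1 / 2 ∧ P (X z) = z := by
    intro z hz
    have hz' : z ∈ ball w (p / K₁) := by
      rw [hspK]
      exact ball_subset_ball (by linarith) hz
    obtain ⟨x, hx, hxz⟩ := hcov hz'
    have hXz : X z = x := by rw [← hxz]; exact hX1 x hx
    have e1 := Complex.dist_le_div_mul_dist_of_mapsTo_ball hXd hXm hz'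
    rw [hXw, dist_zero_right, hspK] at e1
    rw [mem_ball] at hz
    refine ⟨by rw [hXz]; exact hx, ?_, by rw [hXz]; exact hxz⟩
    refine lt_of_le_of_lt e1 ?_
    have : 1 / (2 * s) * dist z w < 1 / (2 * s) * s := mul_lt_mul_of_pos_left hz (by positivity)
    refine lt_of_lt_of_eq this ?_
    field_simp
  -- the rescaled map
  set Q : ℂ → ℂ := fun u => (F (w + s * u) - w) / s with hQ
  have hsC : (s : ℂ) ≠ 0 := by exact_mod_cast hs0.ne'
  have hQder : ∀ u : ℂ, HasDerivAt Q (deriv F (w + s * u)) u := by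
    intro u
    have h1 : HasDerivAt (fun u : ℂ => w + s * u) (s : ℂ) u := by
      simpa using ((hasDerivAt_id u).const_mul (s : ℂ)).const_add w
    have h2 : HasDerivAt (fun u : ℂ => F (w + s * u)) (deriv F (w + s * u) * s) u :=
      HasDerivAt.comp u (hFd (w + s * u)).hasDerivAt h1
    have h3 := (h2.sub_const w).div_const (s : ℂ)
    rwa [mul_div_assoc, div_self hsC, mul_one] at h3
  have hQd : DifferentiableOn ℂ Q (ball 0 1) := fun u _ => (hQder u).differentiableAt.differentiableWithinAt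
  have hmemb : ∀ u ∈ ball (0 : ℂ) 1, w + s * u ∈ ball w s := by
    intro u hu
    rw [mem_ball_zero_iff] at hu
    rw [mem_ball, dist_eq_norm, add_sub_cancel_left, norm_mul, Complex.norm_real, Real.norm_of_nonneg hs0.le]
    nlinarith
  have hsn : ‖(s : ℂ)‖ = s := by rw [Complex.norm_real, Real.norm_of_nonneg hs0.le]
  have hη1 : η ≤ 1 := by linarith
  have hKη : (1 + K₃ * η) * (1 + η) ≤ 2 * (1 + K₃) := by nlinarith [mul_nonneg hK₃0.le hη0.le]
  have hQb : ∀ u ∈ ball (0 : ℂ) 1, ‖Q u‖ ≤ 2 * K₁ * (K₃ + K₃ * (1 + K₃)) := by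
    intro u hu
    obtain ⟨hz1, hz2, hz3⟩ := hXhalf _ (hmemb u hu)
    set z : ℂ := w + s * u with hz
    have e1 : F z = P' (B (X z)) := by
      have := hrel (X z) hz1
      change F (P (X z)) = P' (B (X z)) at this
      rw [hz3] at this
      exact this
    have hBz : ‖B (X z)‖ < 1 / 2 := lt_of_le_of_lt (hBn _ ((hUD _).1 hz1)) hz2
    have e2 := ((hko3 P' 0 1 one_pos hP'd hP'i).2 (B (X z)) (by
      rw [mem_ball_zero_iff]; linarith)).2.2.1
    rw [sub_zero] at e2
    have e3 : ‖F z - w‖ ≤ ‖P' (B (X z)) - P' 0‖ + ‖φ a' - φ a‖ := by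
      rw [e1]
      have : P' (B (X z)) - w = (P' (B (X z)) - P' 0) + (φ a' - φ a) := by
        simp only [hP', hw]
        ring
      rw [this]
      exact norm_add_le _ _
    have e4 : K₃ * ‖B (X z)‖ * ‖deriv P' 0‖ ≤ K₃ * (1 / 2) * (2 * (1 + K₃) * p) := by
      have t1 : ‖deriv P' 0‖ ≤ 2 * (1 + K₃) * p := hp'le.trans (mul_le_mul_of_nonneg_right hKη hp0.le)
      refine mul_le_mul (mul_le_mul_of_nonneg_left hBz.le hK₃0.le) t1 (norm_nonneg _) (by positivity)
    have e5 : K₃ * η * (l * q) ≤ K₃ * p := by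
      rw [← hplq]
      have : K₃ * η ≤ K₃ := by nlinarith
      exact mul_le_mul_of_nonneg_right this hp0.le
    have e6 : ‖Q u‖ = ‖F z - w‖ / s := by
      simp only [hQ, norm_div, hsn]
      rfl
    rw [e6, div_le_iff₀ hs0]
    have e7 : 2 * K₁ * (K₃ + K₃ * (1 + K₃)) * s = (K₃ + K₃ * (1 + K₃)) * p := by
      rw [← hsp]; ring
    rw [e7]
    nlinarith
  have hw0 : w + (s : ℂ) * 0 = w := by ring
  have hQ0 : ‖Q 0‖ ≤ 2 * K₁ * K₃ * η := by
    have e6 : ‖Q 0‖ = ‖φ a' - φ a‖ / s := by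
      simp only [hQ, norm_div, hsn, hw0, hFw]
      rfl
    rw [e6, div_le_iff₀ hs0]
    rw [← hplq] at hdisp
    refine hdisp.trans (le_of_eq ?_)
    rw [← hsp]; ring
  have hQ1 : ‖deriv Q 0‖ ≤ 1 + (2 * K₃ + 1) * η := by
    rw [(hQder 0).deriv, hw0]
    have e1 : ‖deriv F w‖ * p ≤ (1 + (2 * K₃ + 1) * η) * p := by
      refine (hlam.trans hp'le).trans (mul_le_mul_of_nonneg_right ?_ hp0.le)
      nlinarith [mul_nonneg hK₃0.le hη0.le]
    exact le_of_mul_le_mul_right e1 hp0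
  have hit : ∀ z : ℂ, WP.it (GR.fp n c) m z = F z := by
    intro z
    have : (fun z : ℂ => (GR.fp n c).eval z) = fz n c := by
      funext z
      simp [GR.fp, fz]
    simp only [WP.it, this, hF]
  have hit' : WP.it (GR.fp n c) m = F := funext hit
  rcases hloc Q hQd hQb (hQ0.trans (by nlinarith [mul_nonneg hK₃0.le hη0.le])) (hQ1.trans (by nlinarith [mul_nonneg (mul_nonneg hK₁0.le hK₃0.le) hη0.le])) with ⟨u, hu, hfix, hsm⟩ | ⟨hinj, hc1, hc2⟩
  · rw [(hQder u).deriv] at hsm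
    have e1 : F (w + s * u) = w + s * u := by
      simp only [hQ] at hfix
      rw [div_eq_iff hsC] at hfix
      linear_combination hfix
    have e2 := hWD c hdisj m (w + s * u) (by omega) (by rw [hit]; exact e1)
    rw [hit'] at e2
    linarith
  · refine hW c hc hdisj m w (s * ρ) hm (by positivity) ?_ ?_ ?_
    · intro z hz z' hz' hzz
      change F z = F z' at hzz
      have key : ∀ y ∈ ball w (s * ρ), ∃ u ∈ ball (0 : ℂ) ρ, w + s * u = y := by
        intro y hy
        refine ⟨(y - w) / s, ?_, ?_⟩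
        · rw [mem_ball, dist_eq_norm] at hy
          rw [mem_ball_zero_iff, norm_div, hsn, div_lt_iff₀ hs0]
          linarith
        · field_simp
          ring
      obtain ⟨u, hu, rfl⟩ := key z hz
      obtain ⟨u', hu', rfl⟩ := key z' hz'
      have : Q u = Q u' := by
        simp only [hQ, hzz]
      rw [hinj hu hu' this]
    · change ‖F w - w‖ ≤ _
      have e6 : ‖Q 0‖ = ‖F w - w‖ / s := by
        simp only [hQ, norm_div, hsn, hw0]
      rw [e6, div_le_iff₀ hs0] at hc1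
      refine hc1.trans (le_of_eq ?_)
      ring
    · change ‖deriv F w - 1‖ ≤ _
      rw [(hQder 0).deriv, hw0] at hc2
      exact hc2

end ED
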